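import Mathlib

namespace Pool.Agent.Results.MP_d81239_gt.Dense
open Set Cardinal

universe u

/-- Every open cover has a subcover of cardinality at most `κ`. -/
def LindLe (Z : Type u) [TopologicalSpace Z] (κ : Cardinal.{u}) : Prop :=
  ∀ 𝒰 : Set (Set Z), (∀ U ∈ 𝒰, IsOpen U) → ⋃₀ 𝒰 = Set.univ → ∃ 𝒱 ⊆ 𝒰, #𝒱 ≤ κ ∧ ⋃₀ 𝒱 = Set.univ

/-- The Lindelöf number. -/
noncomputable def lind (Z : Type u) [TopologicalSpace Z] : Cardinal.{u} :=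
  sInf {κ | ℵ₀ ≤ κ ∧ LindLe Z κ}

/-- Monotonically normal spaces. -/
def MonNormal (X : Type u) [TopologicalSpace X] : Prop :=
  T1Space X ∧ ∃ H : X → Set X → Set X,
    (∀ x U, IsOpen U → x ∈ U → IsOpen (H x U) ∧ x ∈ H x U ∧ H x U ⊆ U) ∧
    ∀ x U y V, IsOpen U → x ∈ U → IsOpen V → y ∈ V → (H x U ∩ H y V).Nonempty → x ∈ V ∨ y ∈ U

variable {X : Type u} [TopologicalSpace X]

lemma greedy [T1Space X] (H : X → Set X → Set X)
    (h1 : ∀ x U, IsOpen U → x ∈ U → IsOpen (H x U) ∧ x ∈ H x U ∧ H x U ⊆ U)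
    (h2 : ∀ x U y V, IsOpen U → x ∈ U → IsOpen V → y ∈ V → (H x U ∩ H y V).Nonempty →
      x ∈ V ∨ y ∈ U)
    (U : X → Set X) (hU : ∀ x, IsOpen (U x) ∧ x ∈ U x) (D S : Set X) (hS : S ⊆ closure D)
    (ht : ∀ x ∈ S, ∀ y ∈ S, x ∈ H y (U y) ∨ y ∈ H x (U x)) :
    ∃ T : Set X, #T ≤ #D + 1 ∧ S ⊆ ⋃ t ∈ T, U t := by
  classical
  obtain ⟨_, hw⟩ := exists_wellFoundedLT (α := X)
  let P : X → Prop := hw.wf.fix fun x ih => x ∈ S ∧ ∀ t (h : t < x), ih t h → x ∉ U t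
  have hP : ∀ x, P x ↔ x ∈ S ∧ ∀ t < x, P t → x ∉ U t := fun x => by
    simp only [P]; rw [hw.wf.fix_eq]
  have hG := fun x => h1 x _ (hU x).1 (hU x).2
  have hlt : ∀ s t, P s → P t → s < t → s ∈ H t (U t) := fun s t hs ht' h =>
    (ht s ((hP s).1 hs).1 t ((hP t).1 ht').1).resolve_right fun h' =>
      ((hP t).1 ht').2 s h hs ((hG s).2.2 h')
  have key : ∀ t : {t | P t ∧ ∃ s, P s ∧ t < s}, ∃ d : D, ∃ s W, P s ∧ t.1 < s ∧
      (∀ r, P r → t.1 < r → s ≤ r) ∧ IsOpen W ∧ s ∈ W ∧ W ⊆ U s ∧ (∀ r ∈ W, P r → t.1 < r) ∧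
      d.1 ∈ H s W := by
    rintro ⟨t, hPt, hne⟩
    obtain ⟨s, ⟨hs, hts⟩, hmin⟩ := hw.wf.has_min {s | P s ∧ t < s} hne
    have ho : IsOpen (U s ∩ H s {t}ᶜ) :=
      (hU s).1.inter (h1 s _ isOpen_compl_singleton hts.ne').1
    have hm : s ∈ U s ∩ H s {t}ᶜ := ⟨(hU s).2, (h1 s _ isOpen_compl_singleton hts.ne').2.1⟩
    obtain ⟨d, hd, hD⟩ := mem_closure_iff.1 (hS ((hP s).1 hs).1) _ (h1 s _ ho hm).1
      (h1 s _ ho hm).2.1
    refine ⟨⟨d, hD⟩, s, _, hs, hts, fun r hr h => not_lt.1 (hmin r ⟨hr, h⟩), ho, hm,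
      inter_subset_left, fun r hr hPr => ?_, hd⟩
    by_contra hc
    rcases (not_lt.1 hc).lt_or_eq with h | rfl
    · rcases h2 s _ t _ isOpen_compl_singleton hts.ne' (hU t).1 (hU t).2
        ⟨r, hr.2, hlt r t hPr hPt h⟩ with h' | h'
      · exact ((hP s).1 hs).2 t hts hPt h'
      · exact h' rfl
    · exact (h1 s _ isOpen_compl_singleton hts.ne').2.2 hr.2 rfl
  choose f s W k1 k2 k3 k4 k5 k6 k7 k8 using key
  have aux : ∀ a b, a.1 < b.1 → f a ≠ f b := fun a b h e => by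
    have h3 := k3 a b b.2.1 h
    rcases h2 _ _ _ _ (k4 a) (k5 a) (k4 b) (k5 b) ⟨f a, k8 a, e ▸ k8 b⟩ with h' | h'
    · exact absurd (k7 b _ h' (k1 a)) (not_lt.2 h3)
    · exact ((hP _).1 (k1 b)).2 _ (h3.trans_lt (k2 b)) (k1 a) (k6 a h')
  have hf : Function.Injective f := fun a b e => by
    rcases lt_trichotomy a.1 b.1 with h | h | h
    · exact absurd e (aux a b h)
    · exact Subtype.ext h
    · exact absurd e.symm (aux b a h)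
  refine ⟨{t | P t ∧ ∃ s, P s ∧ t < s} ∪ {t | P t ∧ ¬ ∃ s, P s ∧ t < s},
    (mk_union_le _ _).trans (add_le_add (mk_le_of_injective hf) ?_), fun x hx => ?_⟩
  · rw [mk_le_one_iff_set_subsingleton]
    intro a ha b hb
    exact le_antisymm (not_lt.1 fun h => hb.2 ⟨a, ha.1, h⟩) (not_lt.1 fun h => ha.2 ⟨b, hb.1, h⟩)
  · obtain ⟨t, h3, h4⟩ : ∃ t, P t ∧ x ∈ U t := by
      by_cases h : P x
      · exact ⟨x, h, (hU x).2⟩
      · rw [hP] at h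
        push Not at h
        obtain ⟨t, -, h3, h4⟩ := h hx
        exact ⟨t, h3, h4⟩
    exact mem_biUnion (show t ∈ _ ∪ _ from (em _).imp (fun h => ⟨h3, h⟩) fun h => ⟨h3, h⟩) h4

theorem result (X : Type u) [TopologicalSpace X] (hX : MonNormal X) (Y : Set X) (hY : Dense Y) :
    lind X ≤ lind Y := by
  obtain ⟨_, H, h1, h2⟩ := hX
  obtain ⟨hκ, hL⟩ : lind Y ∈ {κ | ℵ₀ ≤ κ ∧ LindLe Y κ} := csInf_mem
    ⟨max ℵ₀ #(Set Y), le_max_left _ _, fun 𝒰 _ h =>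
      ⟨𝒰, subset_rfl, (mk_set_le _).trans (le_max_right _ _), h⟩⟩
  refine csInf_le' ⟨hκ, fun 𝒰 ho hc => ?_⟩
  have : ∀ x, ∃ U ∈ 𝒰, x ∈ U := fun x => (hc ▸ mem_univ x : x ∈ ⋃₀ 𝒰)
  choose U hU1 hU2 using this
  have hU : ∀ x, IsOpen (U x) ∧ x ∈ U x := fun x => ⟨ho _ (hU1 x), hU2 x⟩
  have hG := fun x => h1 x _ (hU x).1 (hU x).2
  obtain ⟨𝒱, hV1, hV2, hV3⟩ := hL (range fun x : X => Subtype.val ⁻¹' H x (U x))
    (by rintro _ ⟨x, rfl⟩; exact (hG x).1.preimage continuous_subtype_val)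
    (eq_univ_of_forall fun y => ⟨_, ⟨y.1, rfl⟩, (hG y.1).2.1⟩)
  choose g hg using fun V : 𝒱 => hV1 V.2
  have hD : #(range g) ≤ lind Y := mk_range_le.trans hV2
  have hT := fun d : range g => greedy H h1 h2 U hU (range g)
    {x | x ∈ closure (range g) ∧ d.1 ∈ H x (H x (U x))} (fun x hx => hx.1) fun x hx y hy =>
      h2 x _ y _ (hG x).1 (hG x).2.1 (hG y).1 (hG y).2.1 ⟨d, hx.2, hy.2⟩
  choose T hT1 hT2 using hT
  refine ⟨U '' (range g ∪ ⋃ d, T d), by rintro _ ⟨x, -, rfl⟩; exact hU1 x,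
    mk_image_le.trans ((mk_union_le _ _).trans (add_le_of_le hκ hD ?_)),
    eq_univ_of_forall fun x => ?_⟩
  · refine (mk_iUnion_le _).trans (mul_le_of_le hκ hD (ciSup_le' fun d => (hT1 d).trans ?_))
    exact add_le_of_le hκ hD (one_le_aleph0.trans hκ)
  · by_cases hx : x ∈ closure (range g)
    · obtain ⟨d, hd, hd'⟩ := mem_closure_iff.1 hx _ (h1 x _ (hG x).1 (hG x).2.1).1
        (h1 x _ (hG x).1 (hG x).2.1).2.1
      obtain ⟨t, ht, h⟩ := mem_iUnion₂.1 (hT2 ⟨d, hd'⟩ ⟨hx, hd⟩)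
      exact ⟨_, ⟨t, Or.inr (mem_iUnion.2 ⟨_, ht⟩), rfl⟩, h⟩
    · have ho' : IsOpen (closure (range g))ᶜ := isClosed_closure.isOpen_compl
      obtain ⟨y, hy, hy'⟩ := hY.exists_mem_open (h1 x _ ho' hx).1 ⟨x, (h1 x _ ho' hx).2.1⟩
      obtain ⟨V, hV, hyV⟩ : (⟨y, hy⟩ : Y) ∈ ⋃₀ 𝒱 := hV3 ▸ mem_univ _
      have e := hg ⟨V, hV⟩
      simp only at e
      rw [← e] at hyV
      rcases h2 x _ _ _ ho' hx (hU _).1 (hU _).2 ⟨y, hy', hyV⟩ with h | h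
      · exact ⟨_, ⟨_, Or.inl ⟨_, rfl⟩, rfl⟩, h⟩
      · exact absurd (subset_closure (mem_range_self _)) h

end Pool.Agent.Results.MP_d81239_gt.Dense
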